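import Pool.Agent.H78R3.TSV.Mem

/-!
# Tensor Singular Value is `∃ℝ`-complete

Sketch of the hardness proof.  Let `g₁ = … = g_m = 0` be a system of homogeneous quadratic
equations on `ℝⁿ`, each the sum of at most three terms `c x_i x_j` with small integers `c`; whether
such a system has a nonzero real solution is `∃ℝ`-hard.  Write `b_{ij}(x,y) = x_i y_j + x_j y_i` and
let `g(x,y)` be the symmetric bilinear form of a quadratic form `g`.  The identity
`(a+b+c)² = 3(a²+b²+c²) - (a-b)² - (b-c)² - (a-c)²` shows that, for a large integer `C`, the form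

  `C ∑_{ij} b_{ij}(x,y)² - ∑ g_l(x,y)² = 2C (|x|²|y|² + ⟨x,y⟩²) - ∑ g_l(x,y)²`

is a sum `∑_k A_k(x,y)²` of squares of explicit symmetric bilinear forms with integer coefficients.
The tensor `T(x,y,z) = ∑_k z_k A_k(x,y)` has spectral norm at most `σ = √(4C)`; if `σ` is a singular
value, with `x`, `y`, `z`, then `∑_k A_k(x,y)² = σ²`, so `y = ± x` and `g_l(x,x) = 0` for all `l`.
Conversely a unit vector `x` with `g_l(x,x) = 0` gives the singular triple `(x, x, A(x,x)/σ)`, since
the derivative of `∑ g_l²` vanishes at `x`.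
-/

namespace Pool.Agent.Results.MP_acf5a6_lc.TensorSingularValueComplete

open Pool.Agent.NPC Pool.Agent.NPC.ER Pool.Agent.H78R3.TSV

/-- Tensor Singular Value is `∃ℝ`-complete under polynomial-time many-one reductions. -/
theorem result : ERComplete (lang TensorSingularValue) :=
  ⟨Pool.Agent.NPC.H78TSV.tsv_mem, Pool.Agent.NPC.H78TSV.tsv_hard⟩

end Pool.Agent.Results.MP_acf5a6_lc.TensorSingularValueComplete
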